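import Pool.Agent.Q229.MW.Base

/-!
# Project MW, lemma M1: the canonical form of a formula is equivalent
-/

set_option autoImplicit false

namespace Pool.Agent.Q151.MW

open Pool.Agent.NPC Pool.Agent.Q229.MW

theorem mem_varList {φ : CNF} {C : List (ℕ × Bool)} (hC : C ∈ φ) {l : ℕ × Bool} (hl : l ∈ C) :
    l.1 ∈ varList φ := by
  unfold varList
  rw [List.mem_dedup, List.mem_map]
  exact ⟨l, List.mem_flatten.2 ⟨C, hC, hl⟩, rfl⟩

theorem mem_canon {φ : CNF} {D : List (ℕ × Bool)} :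
    D ∈ canon φ ↔ ∃ C ∈ φ, C.map (fun l => ((varList φ).idxOf l.1, l.2)) = D := by
  unfold canon
  rw [List.mem_dedup, List.mem_map]

theorem getD_idxOf {l : List ℕ} {a : ℕ} (h : a ∈ l) : l.getD (l.idxOf a) 0 = a := by
  have h1 : l.idxOf a < l.length := List.idxOf_lt_length_iff.2 h
  rw [List.getD_eq_getElem l 0 h1]
  exact List.getElem_idxOf h1

/-- **MW-M1.** The canonical form is equivalent. -/
theorem M1 (φ : CNF) : Sat (canon φ) ↔ Sat φ := by
  constructor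
  · rintro ⟨g, hg⟩
    refine ⟨fun v => g ((varList φ).idxOf v), fun C hC => ?_⟩
    obtain ⟨l, hl, h⟩ := hg _ (mem_canon.2 ⟨C, hC, rfl⟩)
    obtain ⟨l', hl', rfl⟩ := List.mem_map.1 hl
    exact ⟨l', hl', h⟩
  · rintro ⟨f, hf⟩
    refine ⟨fun i => f ((varList φ).getD i 0), fun D hD => ?_⟩
    obtain ⟨C, hC, rfl⟩ := mem_canon.1 hD
    obtain ⟨l, hl, h⟩ := hf C hC
    refine ⟨_, List.mem_map.2 ⟨l, hl, rfl⟩, ?_⟩
    show f ((varList φ).getD ((varList φ).idxOf l.1) 0) = l.2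
    rw [getD_idxOf (mem_varList hC hl)]
    exact h

end Pool.Agent.Q151.MW
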