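import Pool.Agent.Q229.MW.Base

/-!
# Project MW, lemma N2: the length of the codes in N1
-/

set_option autoImplicit false

namespace Pool.Agent.Q151.MW

open Pool.Agent.NPC Pool.Agent.Q229.MW

theorem sz_nat_le' {n M : ℕ} (h : n ≤ M) : sz n ≤ 4 * M + 1 := by
  have h1 := sz_nat_le n
  have h2 : n.size ≤ n := Nat.size_le.2 Nat.lt_two_pow_self
  omega

theorem sz_okLabels (φ : CNF) (L : List (ℕ × List (ℕ × Bool))) : sz (okLabels φ L) ≤ sz L := by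
  induction L with
  | nil => exact le_refl _
  | cons p L ih =>
    have h0 : sz (p :: L) = sz p + sz L + 1 := sz_list_cons p L
    have hp : sz p = sz p.1 + sz p.2 + 1 := sz_pair p.1 p.2
    by_cases h : okNode φ p.2 = true
    · have h1 : okLabels φ (p :: L) = p.1 :: okLabels φ L := by
        unfold okLabels
        rw [List.filter_cons_of_pos (by exact h)]
        rfl
      rw [h1, sz_list_cons, h0]
      omega
    · have h1 : okLabels φ (p :: L) = okLabels φ L := by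
        unfold okLabels
        rw [List.filter_cons_of_neg (by exact h)]
      rw [h1, h0]
      omega

theorem sz_lits (N : ℕ) (q : List (ℕ × Bool)) (h1 : q.length ≤ N) (h2 : ∀ l ∈ q, l.1 < N) :
    sz q ≤ N * (4 * N + 6) + 1 := by
  have h := sz_le_length_mul q (4 * N + 5) (fun l hl => by
    have h3 := sz_nat_le' (h2 l hl).le
    have h4 := sz_bool_le l.2
    have h5 : sz l = sz l.1 + sz l.2 + 1 := sz_pair l.1 l.2
    omega)
  have h6 : q.length * (4 * N + 5 + 1) ≤ N * (4 * N + 6) := Nat.mul_le_mul_right _ h1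
  omega

theorem sz_LE (N : ℕ) (L : List (ℕ × List (ℕ × Bool))) (E : List (ℕ × ℕ))
    (hE : E.length ≤ L.length ^ 2)
    (h1 : ∀ p ∈ L, p.1 < L.length ∧ p.2.length ≤ N ∧ ∀ l ∈ p.2, l.1 < N)
    (h2 : ∀ e ∈ E, e.1 < L.length ∧ e.2 < L.length) :
    sz (L, E) ≤ 100 * (L.length + 1) ^ 3 * (N + 1) ^ 2 := by
  obtain ⟨M, hM⟩ : ∃ M, M = L.length := ⟨_, rfl⟩
  rw [← hM] at hE h1 h2 ⊢
  have h3 := sz_le_length_mul L (4 * M + N * (4 * N + 6) + 3) (fun p hp => by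
    obtain ⟨a1, a2, a3⟩ := h1 p hp
    have h4 := sz_nat_le' a1.le
    have h5 := sz_lits N p.2 a2 a3
    have h6 : sz p = sz p.1 + sz p.2 + 1 := sz_pair p.1 p.2
    omega)
  have h7 := sz_le_length_mul E (8 * M + 3) (fun e he => by
    obtain ⟨a1, a2⟩ := h2 e he
    have h4 := sz_nat_le' a1.le
    have h5 := sz_nat_le' a2.le
    have h6 : sz e = sz e.1 + sz e.2 + 1 := sz_pair e.1 e.2
    omega)
  have h8 : E.length * (8 * M + 3 + 1) ≤ M ^ 2 * (8 * M + 4) := Nat.mul_le_mul_right _ hE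
  have h9 : sz (L, E) = sz L + sz E + 1 := sz_pair L E
  rw [← hM] at h3
  have h10 : sz (L, E) ≤ M * (4 * M + N * (4 * N + 6) + 4) + M ^ 2 * (8 * M + 4) + 3 := by
    rw [h9]
    have : M * (4 * M + N * (4 * N + 6) + 3 + 1) = M * (4 * M + N * (4 * N + 6) + 4) := by ring
    omega
  refine h10.trans ?_
  have e1 : 1 ≤ (N + 1) ^ 2 := Nat.one_le_pow _ _ (Nat.succ_pos _)
  have e2 : M * (4 * M + 4) + M ^ 2 * (8 * M + 4) + 3 ≤ 20 * (M + 1) ^ 3 := by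
    nlinarith [Nat.zero_le M, Nat.zero_le (M ^ 2), Nat.zero_le (M ^ 3)]
  have e3 : M * (N * (4 * N + 6)) ≤ (M + 1) ^ 3 * (10 * (N + 1) ^ 2) := by
    refine Nat.mul_le_mul ?_ ?_
    · calc M ≤ M + 1 := Nat.le_succ _
        _ = (M + 1) ^ 1 := (pow_one _).symm
        _ ≤ (M + 1) ^ 3 := Nat.pow_le_pow_right (Nat.succ_pos _) (by norm_num)
    · nlinarith [Nat.zero_le N, Nat.zero_le (N ^ 2)]
  calc M * (4 * M + N * (4 * N + 6) + 4) + M ^ 2 * (8 * M + 4) + 3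
      = (M * (4 * M + 4) + M ^ 2 * (8 * M + 4) + 3) + M * (N * (4 * N + 6)) := by ring
    _ ≤ 20 * (M + 1) ^ 3 * (N + 1) ^ 2 + (M + 1) ^ 3 * (10 * (N + 1) ^ 2) := by
        refine Nat.add_le_add ?_ e3
        calc M * (4 * M + 4) + M ^ 2 * (8 * M + 4) + 3 ≤ 20 * (M + 1) ^ 3 := e2
          _ = 20 * (M + 1) ^ 3 * 1 := (mul_one _).symm
          _ ≤ 20 * (M + 1) ^ 3 * (N + 1) ^ 2 := Nat.mul_le_mul_left _ e1
    _ ≤ 100 * (M + 1) ^ 3 * (N + 1) ^ 2 := by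
        nlinarith [Nat.zero_le ((M + 1) ^ 3 * (N + 1) ^ 2)]

theorem size_calc (r s N M : ℕ) (hs : 1 ≤ s) (hM : M ≤ s ^ r * 2 ^ (r * (N / s + 1))) :
    100 * (M + 1) ^ 3 * (N + 1) ^ 2 ≤
      (100 * (2 * s ^ r * 2 ^ r) ^ 3 * s ^ 2) * 2 ^ ((3 * r + 2) * (N / s)) := by
  obtain ⟨t, ht⟩ : ∃ t, t = N / s := ⟨_, rfl⟩
  rw [← ht] at hM ⊢
  have h1 : M + 1 ≤ 2 * s ^ r * 2 ^ r * 2 ^ (r * t) := by
    have h2 : s ^ r * 2 ^ (r * (t + 1)) = s ^ r * 2 ^ r * 2 ^ (r * t) := by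
      rw [Nat.mul_add, Nat.mul_one, pow_add]
      ring
    have h3 : 1 ≤ s ^ r * 2 ^ r * 2 ^ (r * t) := Nat.succ_le_of_lt (by positivity)
    rw [h2] at hM
    have h4 : 2 * s ^ r * 2 ^ r * 2 ^ (r * t) = s ^ r * 2 ^ r * 2 ^ (r * t) + s ^ r * 2 ^ r * 2 ^ (r * t) := by
      ring
    omega
  have h5 : N + 1 ≤ s * 2 ^ t := by
    have h6 : N < s * (t + 1) := by
      rw [ht]
      exact Nat.lt_mul_div_succ N hs
    have h7 : t + 1 ≤ 2 ^ t := Nat.lt_two_pow_self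
    calc N + 1 ≤ s * (t + 1) := h6
      _ ≤ s * 2 ^ t := Nat.mul_le_mul_left _ h7
  calc 100 * (M + 1) ^ 3 * (N + 1) ^ 2
      ≤ 100 * (2 * s ^ r * 2 ^ r * 2 ^ (r * t)) ^ 3 * (s * 2 ^ t) ^ 2 :=
        Nat.mul_le_mul (Nat.mul_le_mul_left _ (Nat.pow_le_pow_left h1 3)) (Nat.pow_le_pow_left h5 2)
    _ = (100 * (2 * s ^ r * 2 ^ r) ^ 3 * s ^ 2) * 2 ^ ((3 * r + 2) * t) := by
        have h8 : (2 : ℕ) ^ ((3 * r + 2) * t) = (2 ^ (r * t)) ^ 3 * (2 ^ t) ^ 2 := by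
          rw [← pow_mul, ← pow_mul, ← pow_add]
          congr 1
          ring
        rw [h8]
        ring

/-- **MW-N2** from N1. The length of the codes. -/
theorem N2_of (hN1 : ∀ (r s N : ℕ), 1 ≤ s → ∃ (L : List (ℕ × List (ℕ × Bool))) (E : List (ℕ × ℕ)),
    L.length ≤ s ^ r * 2 ^ (r * (N / s + 1)) ∧ E.length ≤ L.length ^ 2 ∧
    (∀ p ∈ L, p.1 < L.length ∧ p.2.length ≤ N ∧ ∀ l ∈ p.2, l.1 < N) ∧
    (∀ e ∈ E, e.1 < L.length ∧ e.2 < L.length) ∧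
    ∀ φ : CNF, Width r φ → (∀ D ∈ φ, ∀ l ∈ D, l.1 < N) →
      (HasClique (okLabels φ L, E) (s ^ r) ↔ Sat φ)) (r : ℕ) :
    ∃ c : ℕ, ∀ s : ℕ, 1 ≤ s → ∃ C : ℕ, ∀ N : ℕ,
    ∃ (L : List (ℕ × List (ℕ × Bool))) (E : List (ℕ × ℕ)),
      sz (L, E) ≤ C * 2 ^ (c * (N / s)) ∧ (∀ φ : CNF, sz (okLabels φ L) ≤ sz L) ∧
      ∀ φ : CNF, Width r φ → (∀ D ∈ φ, ∀ l ∈ D, l.1 < N) →
        (HasClique (okLabels φ L, E) (s ^ r) ↔ Sat φ) := by
  refine ⟨3 * r + 2, fun s hs => ⟨100 * (2 * s ^ r * 2 ^ r) ^ 3 * s ^ 2, fun N => ?_⟩⟩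
  obtain ⟨L, E, h1, h2, h3, h4, h5⟩ := hN1 r s N hs
  exact ⟨L, E, (sz_LE N L E h2 h3 h4).trans (size_calc r s N L.length hs h1),
    fun φ => sz_okLabels φ L, h5⟩

end Pool.Agent.Q151.MW
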