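import Pool.Agent.Q229.MW.Base

/-!
# Project MW, lemma N3: `okLabels` is computed in polynomial time
-/

set_option autoImplicit false

namespace Pool.Agent.Q151.MW

open Pool.Agent.NPC Pool.Agent.Q229.MW

theorem poly_okNode : Poly (fun x : CNF × List (ℕ × Bool) => okNode x.1 x.2) := by
  have h1 : Poly (fun z : ((CNF × List (ℕ × Bool)) × List (ℕ × Bool)) × (ℕ × Bool) =>
      decide ((z.2.1, !z.2.2) ∈ z.1.1.2)) :=
    (Poly.decide_mem (f := fun z : ((CNF × List (ℕ × Bool)) × List (ℕ × Bool)) × (ℕ × Bool) =>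
      (z.2.1, !z.2.2)) (l := fun z => z.1.1.2)
      (Poly.pair (Poly.fst (Poly.snd Poly.id)) (Poly.not (Poly.snd (Poly.snd Poly.id))))
      (Poly.snd (Poly.fst (Poly.fst Poly.id)))).congr fun z => decide_eq_decide.2 Iff.rfl
  have h2 : Poly (fun y : (CNF × List (ℕ × Bool)) × List (ℕ × Bool) =>
      !(y.2.all fun l => decide ((l.1, !l.2) ∈ y.1.2))) :=
    Poly.not (Poly.all (l := fun y : (CNF × List (ℕ × Bool)) × List (ℕ × Bool) => y.2)
      (p := fun y l => decide ((l.1, !l.2) ∈ y.1.2)) (Poly.snd Poly.id) h1)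
  exact Poly.all (l := fun x : CNF × List (ℕ × Bool) => x.1)
    (p := fun x D => !(D.all fun l => decide ((l.1, !l.2) ∈ x.2))) (Poly.fst Poly.id) h2

/-- **MW-N3.** `okLabels` is computed in polynomial time. -/
theorem N3 : Poly (fun p : CNF × List (ℕ × List (ℕ × Bool)) => okLabels p.1 p.2) := by
  have h1 : Poly (fun y : (CNF × List (ℕ × List (ℕ × Bool))) × (ℕ × List (ℕ × Bool)) =>
      okNode y.1.1 y.2.2) :=
    poly_okNode.comp (f := fun y : (CNF × List (ℕ × List (ℕ × Bool))) × (ℕ × List (ℕ × Bool)) =>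
      (y.1.1, y.2.2)) (Poly.pair (Poly.fst (Poly.fst Poly.id)) (Poly.snd (Poly.snd Poly.id)))
  have h2 : Poly (fun p : CNF × List (ℕ × List (ℕ × Bool)) => p.2.filter fun q => okNode p.1 q.2) :=
    Poly.filter (l := fun p : CNF × List (ℕ × List (ℕ × Bool)) => p.2)
      (p := fun p q => okNode p.1 q.2) (Poly.snd Poly.id) h1
  exact NPC.Poly.map (l := fun p : CNF × List (ℕ × List (ℕ × Bool)) => p.2.filter fun q => okNode p.1 q.2)
    (F := fun _ q => q.1) h2 (Poly.fst (Poly.snd Poly.id))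

end Pool.Agent.Q151.MW
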